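import Pool.Agent.X98.FL.Final

set_option autoImplicit false

open Polynomial Pool.Agent.W432.WB Pool.Agent.W432.HK Pool.Agent.X98.PC Pool.Agent.X98.FL

universe v

namespace Pool.Agent.Results.MP_aa40d3_nt.FactorsLift

/-- Factors of small height modulo one prime come from factorizations in characteristic zero.

Let `L = ∑ b k ∂ ^ k` be a Fuchsian operator of order `n` with rational local exponents; this is the
case if the reductions of `L` have a full basis of rational solutions for almost all primes (the
hypothesis of the conjecture). There is a constant `C` such that for every prime `p`, every algebraic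
extension `k` of `F_p` and every right factor `R = ∂ ^ s + ∑ j, r j ∂ ^ j` over `k(x)` of the
reduction of `L`: if `C (ht (r j) + 1) < p` for all coefficients of `R`, then `L` has a right factor
of the same order `s` with coefficients in `Q(x)`, `Q` the field of the algebraic numbers. So if `L`
is irreducible over `Q(x)`, all right factors of order `0 < s < n` modulo all primes `p` have
height at least `p / C - 1`. -/
theorem result {n : ℕ} (b : Fin (n + 1) → ℤ[X]) (hb : b (Fin.last n) ≠ 0)
    (h : Cond b ∨ ∃ (m : ℕ) (α : Fin m → AlgebraicClosure ℚ) (lam : Fin m → Fin n → ℚ)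
      (phi : Fin n → ℚ) (N : ℕ), 0 < m ∧ FuchsianWith b α lam phi ∧ CommonDen lam phi N) :
    ∃ C : ℕ, ∀ (p : ℕ) [Fact p.Prime] (k : Type v) [Field k] [Algebra (ZMod p) k]
      [Algebra.IsAlgebraic (ZMod p) k] (s : ℕ) (r : Fin s → RatFunc k), RightFactor k b r →
      (∀ j, C * (ht (r j) + 1) < p) →
      ∃ r' : Fin s → RatFunc (AlgebraicClosure ℚ), RightFactor (AlgebraicClosure ℚ) b r' := by
  rcases h with hc | ⟨m, α, lam, phi, N, hm, hF, hN⟩
  · obtain ⟨m, hm, α, lam, phi, N, hF, hN⟩ := fuchsian_of_cond hb hc
    exact factors_lift.{v} hm hF hN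
  · exact factors_lift.{v} hm hF hN

end Pool.Agent.Results.MP_aa40d3_nt.FactorsLift
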