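import Pool.Agent.X98.PC.FewFinal

set_option autoImplicit false

open Polynomial Pool.Agent.W432.WB Pool.Agent.W432.HK Pool.Agent.X98.PC Pool.Agent.W432.PC

namespace Pool.Agent.Results.MP_aa40d3_nt.FewZeros

/-- Solutions modulo a prime with few zeros come from radicals.

For `y ∈ F_p(x)` let `nz p y` be the number of the zeros and poles of `y` in an algebraic closure of
`F_p` whose order is not divisible by `p` (so that `nz p y = 0` for constants `y ∈ F_p(x ^ p)`).

Let `L = ∑ b k ∂ ^ k` be a Fuchsian operator of order `n` with rational local exponents; this is the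
case if the reductions of `L` have a full basis of rational solutions for almost all primes (the
hypothesis of the conjecture). There are `M` and `C`, with `M ≤ N (n - 1)` for every common
denominator `N` of the exponents, such that for every prime `p`: if the reduction of `L` has `r`
solutions `y j ∈ F_p(x)`, independent over the constants, with `M nz p (y j) + C < p`, then `L` has
`r` solutions, independent over the constants, which are roots of rational functions over the
algebraic numbers. If `r = n`, `L` has a full basis of algebraic solutions. -/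
theorem result {n : ℕ} (b : Fin (n + 1) → ℤ[X]) (hb : b (Fin.last n) ≠ 0)
    (h : Cond b ∨ ∃ (m : ℕ) (α : Fin m → AlgebraicClosure ℚ) (lam : Fin m → Fin n → ℚ)
      (phi : Fin n → ℚ) (N : ℕ), 0 < m ∧ FuchsianWith b α lam phi ∧ CommonDen lam phi N) :
    ∃ M C : ℕ, (∀ (m : ℕ) (α : Fin m → AlgebraicClosure ℚ) (lam : Fin m → Fin n → ℚ)
        (phi : Fin n → ℚ) (N : ℕ), 0 < m → FuchsianWith b α lam phi → CommonDen lam phi N →
          M ≤ N * (n - 1)) ∧
      ∀ (p : ℕ) [Fact p.Prime] (r : ℕ) (y : Fin r → RatFunc (ZMod p)),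
        (∀ j, IsSol (ZMod p) b (y j)) →
        (∀ c : Fin r → RatFunc (ZMod p), (∀ j, ddx (ZMod p) (c j) = 0) →
          ∑ j, c j * y j = 0 → ∀ j, c j = 0) →
        (∀ j, M * nz p (y j) + C < p) → RootSols b r ∧ (r = n → FullAlg b) := by
  classical
  have hex : ∃ N : ℕ, ∃ (m : ℕ) (α : Fin m → AlgebraicClosure ℚ) (lam : Fin m → Fin n → ℚ)
      (phi : Fin n → ℚ), 0 < m ∧ FuchsianWith b α lam phi ∧ CommonDen lam phi N := by
    rcases h with hc | ⟨m, α, lam, phi, N, h⟩
    · obtain ⟨m, hm, α, lam, phi, N, hF, hN⟩ := fuchsian_of_cond hb hc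
      exact ⟨N, m, α, lam, phi, hm, hF, hN⟩
    · exact ⟨N, m, α, lam, phi, h⟩
  obtain ⟨m, α, lam, phi, hm, hF, hN⟩ := Nat.find_spec hex
  obtain ⟨C, hC⟩ := few_zeros hm hF hN
  refine ⟨Nat.find hex * (n - 1), C, fun m' α' lam' phi' N' h1 h2 h3 => Nat.mul_le_mul_right _
    (Nat.find_min' hex ⟨m', α', lam', phi', h1, h2, h3⟩), fun p _ r y h1 h2 h3 => ?_⟩
  have h4 : RootSols b r := hC p r y h1 h2 fun j => by
    rw [← mul_assoc]
    exact h3 j
  refine ⟨h4, ?_⟩
  rintro rfl
  exact h4.fullAlg

end Pool.Agent.Results.MP_aa40d3_nt.FewZeros
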