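import Pool.Agent.X319.DI.OperFinal

set_option autoImplicit false

open Polynomial Pool.Agent.W432.WB Pool.Agent.W432.HK

/-!
# Distances of the local exponents to the integers, for operators with full bases modulo `p`

For an operator with finite monodromy group the local monodromies have product one, up to inverses,
and the distance of an eigenvalue of the monodromy at `x₀` to one is at most the sum of the
displacements of the local monodromies at the other points.  The same inequality, for the lengths of
arcs and for all conjugates, is proved here for operators which have full bases of rational solutions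
modulo the primes of two opposite residue classes (part 1).  With Dirichlet's theorem on simultaneous
approximation it follows that, if the exponents at the points `x ≠ x₀` have only large primes in their
denominators, the denominators at `x₀` must divide the common denominator of the others (part 2).
For operators of order two the closed spherical polygon inequality is proved (part 3), and Grothendieck's
conjecture for operators with a denominator which is prime to the others (part 4), for example with
pairwise coprime denominators of the exponent differences and `∑ 1 / d < 1` (part 5).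

Proof.  The starting theorem `Pool.Agent.W432.WB.main_field` gives inequalities for the ordered weights,
and these give, for all integers `s x` with sum `1` (`Pool.Agent.TH571.PCV.pos_of_ineq`),
`∑ x, ∑ l, (a E x l - s x) % N ≥ n (N - 1)`, where `E x l / N` are the exponents.  (1) Let `a E x l`,
`x ≠ x₀`, be within `D x` of `N ℤ`, `Δ = ∑ D x`; the inequalities for `a` and `-a` with `s x = -D x`,
`s x₀ = 1 + Δ`, say together that at least `n`, so all, of the numbers `a E x₀ l % N` are at most `Δ`
or at least `N - Δ`.  (3) Here `s x` is the smaller one of two lifts of `a E x l`, corrected at one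
point.  (4) The conjugates with given residue modulo the other denominators move the difference
at `x₀` to a neighbour (one or two steps) of any integer; two steps are needed only to correct the
parity, and only for odd denominators.
-/

namespace Pool.Agent.Results.MP_aa40d3_nt.LocalExponentInequality

/-- The distance of a rational number to the nearest integer. -/
def distZ (q : ℚ) : ℚ := |q - round q|

/-- For all large primes `p` with `a p = -1` modulo `N` the reduction of `∑ b k ∂ ^ k` modulo `p` does
not have a full basis of rational solutions. -/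
def NoFull {n : ℕ} (b : Fin (n + 1) → ℤ[X]) (N : ℕ) (a : ℤ) : Prop :=
  ∃ P₀ : ℕ, ∀ p : ℕ, P₀ < p → (N : ℤ) ∣ a * p + 1 → ∀ _hp : Fact p.Prime, ¬ FullMod b p

/-- There is a residue class modulo `N`, prime to `N`, such that for all large primes `p` in it the
reduction of `L = ∑ b k ∂ ^ k` modulo `p` does not have a full basis of rational solutions; in
particular the open implication of Grothendieck's conjecture holds for `L`. -/
def Settled {n : ℕ} (b : Fin (n + 1) → ℤ[X]) (N : ℕ) : Prop :=
  (∃ a : ℤ, IsCoprime a (N : ℤ) ∧ NoFull b N a) ∧ (Cond b → FullAlg b)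

/-- Let `L = ∑ b k ∂ ^ k` be an operator of order `n ≥ 1` with integral polynomial coefficients,
Fuchsian with finite singular points among the distinct algebraic numbers `α j`, `j = 1, …, m`,
`m ≥ 1`, with the rational exponents `lam j l` at `α j` and the rational degrees `phi l` of the
solutions at infinity (the negatives of the exponents there), with common denominator `N`. Write
`ex x l` for these numbers, `x` one of the `m + 1` points (`none` is the point at infinity).

(1) Let `a` be an integer, `x₀` one of the points. If `a * ex x₀ l₀` is farther from the integers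
than the sum over the other points `x` of bounds `D x` for the distances of the numbers `a * ex x l`
to the integers, then for all large primes `p` with `a p = -1`, or for all large primes with
`a p = 1` modulo `N`, the reduction of `L` modulo `p` does not have a full basis of rational
solutions.

(2) Let `M` be a common denominator of the numbers `ex x l` for `x ≠ x₀`, all of whose prime factors
are larger than `(6 m + 7) ^ (m n + 1)`. If `M * ex x₀ l₀` is not an integer, then `Settled b N`.

Now let `n = 2` and let `X x` be the difference of the two exponents at `x`, for a numbering of the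
exponents.

(3) Let `a` be an integer and `k x` integers such that `∑ k x + a (m - 1)` is odd and
`∑ |a * X x - k x| < 1`. Then for all large primes `p` with `a p = -1` modulo `N` the reduction of
`L` modulo `p` does not have a full basis of rational solutions.

(4) Let the denominator `d` of `X x₀` be larger than one and prime to a common denominator `M` of
the other differences, let `a` be prime to `M` and let `δ` be the sum over `x ≠ x₀` of the distances
of `a * X x` to the integers. If `δ + 2 / d < 1`, or if `d` is even and `δ + 1 / d < 1`, then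
`Settled b N`.

(5) Let the denominators `d x` of the differences `X x` be pairwise coprime, `d x₀ > 1`, and let `σ`
be the sum of the numbers `1 / d x` over all points with `d x > 1`. If `σ + 1 / d x₀ < 1`, or if
`d x₀` is even and `σ < 1`, then `Settled b N`. -/
theorem result {m n : ℕ} (hm : 1 ≤ m) (hn : 1 ≤ n) (b : Fin (n + 1) → ℤ[X])
    (α : Fin m → AlgebraicClosure ℚ) (lam : Fin m → Fin n → ℚ) (phi : Fin n → ℚ) (N : ℕ)
    (hF : FuchsianWith b α lam phi) (hN : CommonDen lam phi N) (ex : Option (Fin m) → Fin n → ℚ)
    (hex : ∀ j l, ex (some j) l = lam j l) (hex' : ∀ l, ex none l = phi l) :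
    (∀ (x₀ : Option (Fin m)) (l₀ : Fin n) (a : ℤ) (D : Option (Fin m) → ℚ),
      (∀ x, x ≠ x₀ → ∀ l, distZ (a * ex x l) ≤ D x) →
      ∑ x ∈ Finset.univ.erase x₀, D x < distZ (a * ex x₀ l₀) → NoFull b N a ∨ NoFull b N (-a)) ∧
    (∀ (x₀ : Option (Fin m)) (l₀ : Fin n) (M : ℕ), 0 < M →
      (∀ x, x ≠ x₀ → ∀ l, ∃ z : ℤ, (M : ℚ) * ex x l = z) →
      (∀ q : ℕ, q.Prime → q ∣ M → (6 * m + 7) ^ (m * n + 1) < q) →
      (¬ ∃ z : ℤ, (M : ℚ) * ex x₀ l₀ = z) → Settled b N) ∧
    (n = 2 → ∀ (l₁ l₂ : Fin n) (X : Option (Fin m) → ℚ), l₁ ≠ l₂ →
      (∀ x, X x = ex x l₁ - ex x l₂) →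
      (∀ (a : ℤ) (k : Option (Fin m) → ℤ), Odd (∑ x, k x + a * ((m : ℤ) - 1)) →
        ∑ x, |(a : ℚ) * X x - k x| < 1 → NoFull b N a) ∧
      (∀ (x₀ : Option (Fin m)) (M : ℕ) (a : ℤ), 0 < M →
        (∀ x, x ≠ x₀ → ∃ z : ℤ, (M : ℚ) * X x = z) → 1 < (X x₀).den →
        Nat.Coprime (X x₀).den M → IsCoprime a (M : ℤ) →
        (∑ x ∈ Finset.univ.erase x₀, distZ (a * X x) + 2 / (X x₀).den < 1 ∨
          (Even (X x₀).den ∧
            ∑ x ∈ Finset.univ.erase x₀, distZ (a * X x) + 1 / (X x₀).den < 1)) → Settled b N) ∧
      (∀ x₀ : Option (Fin m), (∀ x y, x ≠ y → Nat.Coprime (X x).den (X y).den) →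
        1 < (X x₀).den →
        (∑ x ∈ Finset.univ.filter (fun x => 1 < (X x).den), (1 : ℚ) / (X x).den +
            1 / (X x₀).den < 1 ∨
          (Even (X x₀).den ∧
            ∑ x ∈ Finset.univ.filter (fun x => 1 < (X x).den), (1 : ℚ) / (X x).den < 1)) →
        Settled b N)) := by
  have key : (∃ a : ℤ, IsCoprime a (N : ℤ) ∧ NoFull b N a) → Settled b N := by
    rintro ⟨a, ha, P₀, hP₀⟩
    refine ⟨⟨a, ha, P₀, hP₀⟩, ?_⟩
    rintro ⟨P, hP⟩
    obtain ⟨p, hp1, hp2, hp3⟩ := exists_prime_class hN.1 ha (max P₀ P)
    have hp : Fact p.Prime := ⟨hp2⟩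
    exact absurd (hP p (lt_of_le_of_lt (le_max_right _ _) hp1) hp)
      (hP₀ p (lt_of_le_of_lt (le_max_left _ _) hp1) hp3 hp)
  refine ⟨fun x₀ l₀ a D hD hlt =>
    Pool.Agent.X319.DI.noFull_of_disp hm hn hF hN ex hex hex' x₀ l₀ a D hD hlt,
    fun x₀ l₀ M hM hMl hq hMl' =>
      key (Pool.Agent.X319.DI.rough_op hm hn hF hN ex hex hex' x₀ l₀ M hM hMl hq hMl'), ?_⟩
  rintro rfl l₁ l₂ X hne hX
  -- the numbering
  have hcase : (l₁ = 0 ∧ l₂ = 1) ∨ (l₁ = 1 ∧ l₂ = 0) := by
    fin_cases l₁ <;> fin_cases l₂
    · exact absurd rfl hne
    · left; exact ⟨rfl, rfl⟩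
    · right; exact ⟨rfl, rfl⟩
    · exact absurd rfl hne
  rcases hcase with ⟨rfl, rfl⟩ | ⟨rfl, rfl⟩
  · refine ⟨fun a k hk hlt => ?_, fun x₀ M a hM hMX hd hcop ha hlt => ?_, fun x₀ hcop hd hlt => ?_⟩
    · simp only [hX] at hlt
      exact Pool.Agent.X319.DI.noFull_of_polygon hm hF hN ex hex hex' a k hk hlt
    · exact key (Pool.Agent.X319.DI.one_point_op hm hF hN ex hex hex' X hX x₀ M a hM hMX hd hcop ha
        hlt)
    · exact key (Pool.Agent.X319.DI.coprime_op hm hF hN ex hex hex' X hX hcop x₀ hd hlt)
  · -- renumber the exponents
    let s : Equiv.Perm (Fin 2) := Equiv.swap 0 1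
    have hF' : FuchsianWith b α (fun j l => lam j (s l)) (fun l => phi (s l)) := by
      obtain ⟨hb, Q, hFu, hE⟩ := hF
      exact ⟨hb, Q, hFu, Pool.Agent.X319.DI.hasExps_perm hE (fun _ => s) s⟩
    have hN' : CommonDen (fun j l => lam j (s l)) (fun l => phi (s l)) N :=
      ⟨hN.1, fun j l => hN.2.1 j _, fun l => hN.2.2 _⟩
    have hs0 : s 0 = 1 := Equiv.swap_apply_left 0 1
    have hs1 : s 1 = 0 := Equiv.swap_apply_right 0 1
    have hX' : ∀ x, X x = (fun x l => ex x (s l)) x 0 - (fun x l => ex x (s l)) x 1 := fun x => by
      simp only [hs0, hs1]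
      exact hX x
    refine ⟨fun a k hk hlt => ?_, fun x₀ M a hM hMX hd hcop ha hlt => ?_, fun x₀ hcop hd hlt => ?_⟩
    · simp only [hX'] at hlt
      exact Pool.Agent.X319.DI.noFull_of_polygon hm hF' hN' (fun x l => ex x (s l))
        (fun j l => hex j _) (fun l => hex' _) a k hk hlt
    · exact key (Pool.Agent.X319.DI.one_point_op hm hF' hN' (fun x l => ex x (s l))
        (fun j l => hex j _) (fun l => hex' _) X hX' x₀ M a hM hMX hd hcop ha hlt)
    · exact key (Pool.Agent.X319.DI.coprime_op hm hF' hN' (fun x l => ex x (s l))
        (fun j l => hex j _) (fun l => hex' _) X hX' hcop x₀ hd hlt)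

end Pool.Agent.Results.MP_aa40d3_nt.LocalExponentInequality
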