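import Pool.Agent.X98.PC.Alg

set_option autoImplicit false

open Polynomial Pool.Agent.W432.WB Pool.Agent.W432.HK Pool.Agent.X98.PC

namespace Pool.Agent.Results.MP_aa40d3_nt.SmallSolutionsLift

/-- Solutions of small height modulo a prime are reductions of solutions in `ℚ(x)`.

Let `L = ∑ b k ∂ ^ k` be an operator of order `n` with integral polynomial coefficients, `b n ≠ 0`.
For `y ∈ F_p(x)` let `ht y` be the maximum of the degrees of the numerator and of the denominator.
There are constants `C`, `D`, with `D = 1` when the reductions of `L` have a full basis of rational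
solutions for almost all primes, such that for every prime `p` and all solutions
`y 1, …, y r ∈ F_p(x)` of the reduction of `L`, linearly independent over `F_p`, with
`C * (ht (y j) + 1) ^ D < p`: every `y j` is the reduction of a solution of `L` in `ℚ(x)`, the
operator `L` has `r` linearly independent solutions in `ℚ(x)`, and if `r = n` it has a full basis of
algebraic solutions. -/
theorem result {n : ℕ} (b : Fin (n + 1) → ℤ[X]) (hb : b (Fin.last n) ≠ 0) :
    ∃ C D : ℕ, (Cond b → D = 1) ∧ ∀ (p : ℕ) [Fact p.Prime] (r : ℕ)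
      (y : Fin r → RatFunc (ZMod p)), LinearIndependent (ZMod p) y →
      (∀ j, IsSol (ZMod p) b (y j)) → (∀ j, C * (ht (y j) + 1) ^ D < p) →
        (∀ j, Lifts b p (y j)) ∧
        (∃ z : Fin r → RatFunc ℚ, (∀ j, IsSol ℚ b (z j)) ∧ LinearIndependent ℚ z) ∧
        (r = n → FullAlg b) := by
  have hfull : ∀ (p : ℕ) [Fact p.Prime] (r : ℕ) (y : Fin r → RatFunc (ZMod p)),
      LinearIndependent (ZMod p) y → (∀ j, Lifts b p (y j)) →
        (∀ j, Lifts b p (y j)) ∧
        (∃ z : Fin r → RatFunc ℚ, (∀ j, IsSol ℚ b (z j)) ∧ LinearIndependent ℚ z) ∧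
          (r = n → FullAlg b) := by
    intro p _ r y hind hl
    obtain ⟨z, hz, hzi⟩ := indep_of_lifts hl hind
    refine ⟨hl, ⟨z, hz, hzi⟩, ?_⟩
    rintro rfl
    exact fullAlg_of_rat hb hz hzi
  by_cases hc : Cond b
  · obtain ⟨m, hm, α, lam, phi, N, hF, hN⟩ := fuchsian_of_cond hb hc
    obtain ⟨C, h⟩ := lift_rat hm hF hN
    refine ⟨N + C, 1, fun _ => rfl, fun p _ r y hind hy hlt => hfull p r y hind fun j => ?_⟩
    refine h p (y j) (hy j) ?_
    have h1 := hlt j
    rw [pow_one] at h1
    have h2 : (N + C) * (ht (y j) + 1) = N * ht (y j) + C + (C * ht (y j) + N) := by ring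
    omega
  · obtain ⟨C, D, h⟩ := lift_gen hb
    exact ⟨C, D, fun h => absurd h hc, fun p _ r y hind hy hlt =>
      hfull p r y hind fun j => h p (y j) (hy j) (hlt j)⟩

end Pool.Agent.Results.MP_aa40d3_nt.SmallSolutionsLift
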